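import Mathlib

set_option autoImplicit false

namespace Pool.Agent.Results.MP_78a590_co.NotRectangular

open Matrix Finset

/-- `H` is a real Hadamard matrix of order `n`. -/
def IsHadamard {n : ℕ} (H : Matrix (Fin n) (Fin n) ℤ) : Prop :=
  (∀ i j, H i j = 1 ∨ H i j = -1) ∧ H * Hᵀ = (n : ℤ) • (1 : Matrix (Fin n) (Fin n) ℤ)

/-- `T` is a trade in `H`: some Hadamard matrix `H' ≠ H` differs from `H` exactly at the positions
in `T`. -/
def IsTrade {n : ℕ} (H : Matrix (Fin n) (Fin n) ℤ) (T : Finset (Fin n × Fin n)) : Prop :=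
  ∃ H' : Matrix (Fin n) (Fin n) ℤ, IsHadamard H' ∧ H' ≠ H ∧ ∀ i j, (i, j) ∈ T ↔ H' i j ≠ H i j

/-- `T` is of the form `A × B`. -/
def IsRectangular {n : ℕ} (T : Finset (Fin n × Fin n)) : Prop :=
  ∃ A B : Finset (Fin n), T = A ×ˢ B

/-- `T` is the symmetric difference of a finite family of rectangular trades in `H`. -/
def IsCombination {n : ℕ} (H : Matrix (Fin n) (Fin n) ℤ) (T : Finset (Fin n × Fin n)) : Prop :=
  ∃ 𝓕 : Finset (Finset (Fin n × Fin n)), (∀ R ∈ 𝓕, IsTrade H R ∧ IsRectangular R) ∧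
    ∀ p, p ∈ T ↔ Odd (𝓕.filter fun R => p ∈ R).card

theorem row_orth {n : ℕ} {H : Matrix (Fin n) (Fin n) ℤ} (hH : IsHadamard H) {i k : Fin n}
    (h : i ≠ k) : ∑ b, H i b * H k b = 0 := by
  have := congrFun (congrFun hH.2 i) k
  rw [Matrix.mul_apply] at this
  simpa [Matrix.one_apply, h] using this

theorem col_orth {n : ℕ} {H : Matrix (Fin n) (Fin n) ℤ} (hH : IsHadamard H) {j l : Fin n}
    (h : j ≠ l) : ∑ a, H a j * H a l = 0 := by
  have hn : (n : ℚ) ≠ 0 := by
    have : 0 < n := lt_of_le_of_lt (Nat.zero_le _) j.isLt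
    positivity
  set M : Matrix (Fin n) (Fin n) ℚ := H.map (Int.cast : ℤ → ℚ) with hM
  have h1 : M * Mᵀ = (n : ℚ) • (1 : Matrix (Fin n) (Fin n) ℚ) := by
    ext a b
    have := congrFun (congrFun hH.2 a) b
    rw [Matrix.mul_apply] at this ⊢
    have h2 := congrArg (Int.cast : ℤ → ℚ) this
    simp only [Int.cast_sum, Int.cast_mul, Matrix.transpose_apply] at h2
    simp only [hM, Matrix.map_apply, Matrix.transpose_apply]
    rw [h2]
    simp only [Matrix.smul_apply, Matrix.one_apply, smul_eq_mul, mul_ite, mul_one, mul_zero]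
    split_ifs <;> simp
  have h2 : M * ((n : ℚ)⁻¹ • Mᵀ) = 1 := by
    rw [Matrix.mul_smul, h1, smul_smul, inv_mul_cancel₀ hn, one_smul]
  have h3 : ((n : ℚ)⁻¹ • Mᵀ) * M = 1 := mul_eq_one_comm.mp h2
  have h4 := congrFun (congrFun h3 j) l
  rw [Matrix.smul_mul, Matrix.smul_apply, Matrix.mul_apply, Matrix.one_apply, if_neg h,
    smul_eq_mul] at h4
  have h5 : (∑ a, M a j * M a l) = 0 := by
    rcases mul_eq_zero.mp h4 with h6 | h6
    · exact absurd h6 (inv_ne_zero hn)
    · simpa [Matrix.transpose_apply] using h6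
  have h6 : ((∑ a, H a j * H a l : ℤ) : ℚ) = 0 := by
    push_cast
    simpa [hM] using h5
  exact_mod_cast h6

/-- indicator with values in `ZMod 2` -/
def ind {n : ℕ} (T : Finset (Fin n × Fin n)) (p : Fin n × Fin n) : ZMod 2 := if p ∈ T then 1 else 0

/-- The functional attached to a pair of columns. -/
def psi {n : ℕ} (H : Matrix (Fin n) (Fin n) ℤ) (j l : Fin n) (T : Finset (Fin n × Fin n)) : ZMod 2 :=
  ∑ a, if H a j ≠ H a l then ind T (a, j) + ind T (a, l) else 0

theorem psi_sum {n : ℕ} (H : Matrix (Fin n) (Fin n) ℤ) (j l : Fin n) (T : Finset (Fin n × Fin n))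
    (𝓕 : Finset (Finset (Fin n × Fin n)))
    (h : ∀ p, p ∈ T ↔ Odd (𝓕.filter fun R => p ∈ R).card) :
    psi H j l T = ∑ R ∈ 𝓕, psi H j l R := by
  have h1 : ∀ p, ind T p = ∑ R ∈ 𝓕, ind R p := by
    intro p
    unfold ind
    rw [← Finset.sum_filter, Finset.sum_const, nsmul_eq_mul, mul_one]
    by_cases hp : p ∈ T
    · rw [if_pos hp]
      have := (h p).mp hp
      exact (ZMod.natCast_eq_one_iff_odd.mpr this).symm
    · rw [if_neg hp]
      have h2 : ¬ Odd (𝓕.filter fun R => p ∈ R).card := fun h3 => hp ((h p).mpr h3)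
      rw [Nat.not_odd_iff_even] at h2
      exact (ZMod.natCast_eq_zero_iff_even.mpr h2).symm
  unfold psi
  rw [Finset.sum_comm]
  refine Finset.sum_congr rfl fun a _ => ?_
  by_cases hc : H a j ≠ H a l
  · simp only [if_pos hc, h1, Finset.sum_add_distrib]
  · simp only [if_neg hc, Finset.sum_const_zero]

/-- the rows in `A` where the columns `j`, `l` differ -/
def D {n : ℕ} (H : Matrix (Fin n) (Fin n) ℤ) (A : Finset (Fin n)) (j l : Fin n) : Finset (Fin n) :=
  A.filter fun a => H a j ≠ H a l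

theorem psi_rect {n : ℕ} (H : Matrix (Fin n) (Fin n) ℤ) (j l : Fin n) (A B : Finset (Fin n)) :
    psi H j l (A ×ˢ B) = ((D H A j l).card : ZMod 2) *
      ((if j ∈ B then 1 else 0) + (if l ∈ B then 1 else 0)) := by
  unfold psi D
  rw [Finset.card_filter, Nat.cast_sum, Finset.sum_mul, ← Finset.sum_subset (Finset.subset_univ A)]
  · refine Finset.sum_congr rfl fun a ha => ?_
    by_cases hc : H a j ≠ H a l
    · simp only [if_pos hc, ind, Finset.mem_product, ha, true_and]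
      simp
    · simp only [if_neg hc]; simp
  · intro a _ ha
    simp [ind, Finset.mem_product, ha]

/-- in a rectangular trade `A × B`, columns separated by `B` differ in half of the rows of `A` -/
theorem half {n : ℕ} {H : Matrix (Fin n) (Fin n) ℤ} (hH : IsHadamard H) {A B : Finset (Fin n)}
    (hT : IsTrade H (A ×ˢ B)) {j l : Fin n} (hj : j ∈ B) (hl : l ∉ B) :
    2 * (D H A j l).card = A.card := by
  obtain ⟨H', hH', -, hd⟩ := hT
  have hjl : j ≠ l := fun h => hl (h ▸ hj)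
  have h1 := col_orth hH hjl
  have h2 := col_orth hH' hjl
  have hneg : ∀ a b, H' a b ≠ H a b → H' a b = - H a b := by
    intro a b hab
    rcases hH.1 a b with h | h <;> rcases hH'.1 a b with h' | h' <;> rw [h, h'] at hab ⊢ <;>
      simp at hab ⊢
  have h3 : ∀ a, H' a j * H' a l = if a ∈ A then - (H a j * H a l) else H a j * H a l := by
    intro a
    have hal : H' a l = H a l := by
      by_contra hc
      have := (hd a l).mpr hc
      exact hl (Finset.mem_product.mp this).2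
    by_cases ha : a ∈ A
    · rw [if_pos ha, hal, hneg a j ((hd a j).mp (Finset.mem_product.mpr ⟨ha, hj⟩))]; ring
    · have haj : H' a j = H a j := by
        by_contra hc
        have := (hd a j).mpr hc
        exact ha (Finset.mem_product.mp this).1
      rw [if_neg ha, hal, haj]
  simp only [h3] at h2
  have h4 : ∑ a ∈ A, H a j * H a l = 0 := by
    have h5 : (∑ a, H a j * H a l) - (∑ a, if a ∈ A then - (H a j * H a l) else H a j * H a l)
        = 2 * ∑ a ∈ A, H a j * H a l := by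
      rw [← Finset.sum_sub_distrib, Finset.mul_sum, ← Finset.sum_subset (Finset.subset_univ A)]
      · refine Finset.sum_congr rfl fun a ha => ?_
        rw [if_pos ha]; ring
      · intro a _ ha
        rw [if_neg ha]; ring
    rw [h1, h2] at h5
    omega
  have h5 : ∀ a ∈ A, H a j * H a l = 1 - 2 * (if H a j ≠ H a l then 1 else 0 : ℤ) := by
    intro a _
    rcases hH.1 a j with h | h <;> rcases hH.1 a l with h' | h' <;> rw [h, h'] <;> norm_num
  rw [Finset.sum_congr rfl h5, Finset.sum_sub_distrib, ← Finset.mul_sum, ← Finset.sum_filter] at h4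
  simp only [Finset.sum_const, nsmul_eq_mul, mul_one] at h4
  have h6 : (2 * ((D H A j l).card : ℤ)) = A.card := by
    unfold D; linarith
  exact_mod_cast h6

theorem D_comm {n : ℕ} (H : Matrix (Fin n) (Fin n) ℤ) (A : Finset (Fin n)) (j l : Fin n) :
    D H A j l = D H A l j := by
  unfold D; congr 1; funext a; simp [ne_comm]

/-- The functional attached to three columns kills all rectangular trades. -/
theorem kill {n : ℕ} {H : Matrix (Fin n) (Fin n) ℤ} (hH : IsHadamard H)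
    {R : Finset (Fin n × Fin n)} (hT : IsTrade H R) (hR : IsRectangular R) (b₁ b₂ b₃ : Fin n) :
    psi H b₁ b₂ R + psi H b₂ b₃ R + psi H b₁ b₃ R = 0 := by
  obtain ⟨A, B, rfl⟩ := hR
  rw [psi_rect, psi_rect, psi_rect]
  have key : ∀ j l j' l' : Fin n, (j ∈ B ∧ l ∉ B ∨ l ∈ B ∧ j ∉ B) →
      (j' ∈ B ∧ l' ∉ B ∨ l' ∈ B ∧ j' ∉ B) → (D H A j l).card = (D H A j' l').card := by
    intro j l j' l' h h'
    have h1 : 2 * (D H A j l).card = A.card := by
      rcases h with h | h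
      · exact half hH hT h.1 h.2
      · rw [D_comm]; exact half hH hT h.1 h.2
    have h2 : 2 * (D H A j' l').card = A.card := by
      rcases h' with h | h
      · exact half hH hT h.1 h.2
      · rw [D_comm]; exact half hH hT h.1 h.2
    omega
  have two : (2 : ZMod 2) = 0 := by decide
  by_cases h1 : b₁ ∈ B <;> by_cases h2 : b₂ ∈ B <;> by_cases h3 : b₃ ∈ B <;>
    simp only [h1, h2, h3, if_true, if_false]
  · linear_combination (((D H A b₁ b₂).card : ZMod 2) + (D H A b₂ b₃).card + (D H A b₁ b₃).card) * two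
  · rw [key b₂ b₃ b₁ b₃ (Or.inl ⟨h2, h3⟩) (Or.inl ⟨h1, h3⟩)]
    linear_combination (((D H A b₁ b₂).card : ZMod 2) + (D H A b₁ b₃).card) * two
  · rw [key b₁ b₂ b₂ b₃ (Or.inl ⟨h1, h2⟩) (Or.inr ⟨h3, h2⟩)]
    linear_combination (((D H A b₂ b₃).card : ZMod 2) + (D H A b₁ b₃).card) * two
  · rw [key b₁ b₂ b₁ b₃ (Or.inl ⟨h1, h2⟩) (Or.inl ⟨h1, h3⟩)]
    linear_combination ((D H A b₁ b₃).card : ZMod 2) * two
  · rw [key b₁ b₂ b₁ b₃ (Or.inr ⟨h2, h1⟩) (Or.inr ⟨h3, h1⟩)]
    linear_combination (((D H A b₂ b₃).card : ZMod 2) + (D H A b₁ b₃).card) * two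
  · rw [key b₁ b₂ b₂ b₃ (Or.inr ⟨h2, h1⟩) (Or.inl ⟨h2, h3⟩)]
    linear_combination ((D H A b₂ b₃).card : ZMod 2) * two
  · rw [key b₂ b₃ b₁ b₃ (Or.inr ⟨h3, h2⟩) (Or.inr ⟨h3, h1⟩)]
    linear_combination ((D H A b₁ b₃).card : ZMod 2) * two
  · ring

/-- in three rows of a Hadamard matrix all sign patterns occur -/
theorem exists_type {n : ℕ} (hn : 3 ≤ n) {H : Matrix (Fin n) (Fin n) ℤ} (hH : IsHadamard H)
    {r₀ r₁ r₂ : Fin n} (h01 : r₀ ≠ r₁) (h02 : r₀ ≠ r₂) (h12 : r₁ ≠ r₂) (e d : ℤ)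
    (he : e = 1 ∨ e = -1) (hd : d = 1 ∨ d = -1) :
    ∃ b, H r₁ b = e * H r₀ b ∧ H r₂ b = d * H r₀ b := by
  by_contra hcon
  push Not at hcon
  have h1 : ∀ b, (1 + e * (H r₀ b * H r₁ b)) * (1 + d * (H r₀ b * H r₂ b)) = 0 := by
    intro b
    have h := hcon b
    rcases hH.1 r₀ b with h0 | h0 <;> rcases hH.1 r₁ b with h1 | h1 <;>
      rcases hH.1 r₂ b with h2 | h2 <;> rcases he with he | he <;> rcases hd with hd | hd <;>
      rw [h0, h1, h2, he, hd] at h <;> rw [h0, h1, h2, he, hd] <;> simp at h ⊢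
  have h2 : ∑ b, (1 + e * (H r₀ b * H r₁ b)) * (1 + d * (H r₀ b * H r₂ b)) =
      n + e * ∑ b, H r₀ b * H r₁ b + d * ∑ b, H r₀ b * H r₂ b + e * d * ∑ b, H r₁ b * H r₂ b := by
    rw [Finset.mul_sum, Finset.mul_sum, Finset.mul_sum]
    have h3 : (n : ℤ) = ∑ _b : Fin n, 1 := by simp
    rw [h3, ← Finset.sum_add_distrib, ← Finset.sum_add_distrib, ← Finset.sum_add_distrib]
    refine Finset.sum_congr rfl fun b _ => ?_
    have h4 : H r₀ b * H r₀ b = 1 := by rcases hH.1 r₀ b with h | h <;> rw [h] <;> norm_num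
    linear_combination e * d * H r₁ b * H r₂ b * h4
  rw [Finset.sum_eq_zero (fun b _ => h1 b), row_orth hH h01, row_orth hH h02, row_orth hH h12] at h2
  simp at h2
  omega

/-- The permutation of the rows `r₀ → r₁ → r₂ → r₀`. -/
def cyc {n : ℕ} (r₀ r₁ r₂ : Fin n) : Fin n → Fin n := fun a =>
  if a = r₀ then r₁ else if a = r₁ then r₂ else if a = r₂ then r₀ else a

theorem cyc_inj {n : ℕ} {r₀ r₁ r₂ : Fin n} (h01 : r₀ ≠ r₁) (h02 : r₀ ≠ r₂) (h12 : r₁ ≠ r₂) :
    Function.Injective (cyc r₀ r₁ r₂) := by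
  intro a b hab
  unfold cyc at hab
  split_ifs at hab <;> simp_all

/-- The value of the functional on the trade given by a cyclic shift of three rows. -/
theorem value {n : ℕ} {H : Matrix (Fin n) (Fin n) ℤ} (hH : IsHadamard H)
    {r₀ r₁ r₂ : Fin n} (h01 : r₀ ≠ r₁) (h02 : r₀ ≠ r₂) (h12 : r₁ ≠ r₂)
    (T : Finset (Fin n × Fin n)) (hT : ∀ i j, (i, j) ∈ T ↔ H (cyc r₀ r₁ r₂ i) j ≠ H i j)
    (j l : Fin n) (hne : ¬ (H r₀ j * H r₀ l = H r₁ j * H r₁ l ∧ H r₀ j * H r₀ l = H r₂ j * H r₂ l)) :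
    psi H j l T = 1 := by
  have c0 : cyc r₀ r₁ r₂ r₀ = r₁ := by simp [cyc]
  have c1 : cyc r₀ r₁ r₂ r₁ = r₂ := by simp [cyc, h01.symm]
  have c2 : cyc r₀ r₁ r₂ r₂ = r₀ := by simp [cyc, h02.symm, h12.symm]
  unfold psi
  rw [← Finset.sum_subset (Finset.subset_univ ({r₀, r₁, r₂} : Finset (Fin n)))]
  · rw [Finset.sum_insert (by simp [h01, h02]), Finset.sum_insert (by simp [h12]),
      Finset.sum_singleton]
    simp only [ind, hT, c0, c1, c2]
    rcases hH.1 r₀ j with a0 | a0 <;> rcases hH.1 r₁ j with a1 | a1 <;>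
      rcases hH.1 r₂ j with a2 | a2 <;> rcases hH.1 r₀ l with e0 | e0 <;>
      rcases hH.1 r₁ l with e1 | e1 <;> rcases hH.1 r₂ l with e2 | e2 <;>
      rw [a0, a1, a2, e0, e1, e2] at hne <;> rw [a0, a1, a2, e0, e1, e2] <;> revert hne <;> decide
  · intro a _ ha
    simp only [Finset.mem_insert, Finset.mem_singleton, not_or] at ha
    have : cyc r₀ r₁ r₂ a = a := by simp [cyc, ha.1, ha.2.1, ha.2.2]
    simp [ind, hT, this]

/-- **Main result.** In every Hadamard matrix of order `n ≥ 3` there is a trade that is not the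
symmetric difference of any finite family of rectangular trades. (Hadamard matrices of order at
least three exist, e.g. of order `4`.) -/
theorem result : (∀ n : ℕ, 3 ≤ n → ∀ H : Matrix (Fin n) (Fin n) ℤ, IsHadamard H →
      ∃ T : Finset (Fin n × Fin n), IsTrade H T ∧ ¬ IsCombination H T) ∧
    ∃ H : Matrix (Fin 4) (Fin 4) ℤ, IsHadamard H := by
  constructor
  · intro n hn H hH
    classical
    set r₀ : Fin n := ⟨0, by omega⟩ with hr0
    set r₁ : Fin n := ⟨1, by omega⟩ with hr1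
    set r₂ : Fin n := ⟨2, by omega⟩ with hr2
    have h01 : r₀ ≠ r₁ := by simp [hr0, hr1]
    have h02 : r₀ ≠ r₂ := by simp [hr0, hr2]
    have h12 : r₁ ≠ r₂ := by simp [hr1, hr2]
    set T : Finset (Fin n × Fin n) := univ.filter fun p => H (cyc r₀ r₁ r₂ p.1) p.2 ≠ H p.1 p.2
      with hTdef
    have hT : ∀ i j, (i, j) ∈ T ↔ H (cyc r₀ r₁ r₂ i) j ≠ H i j := by
      intro i j; simp [hTdef]
    obtain ⟨b₁, u1, u2⟩ := exists_type hn hH h01 h02 h12 1 1 (Or.inl rfl) (Or.inl rfl)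
    obtain ⟨b₂, v1, v2⟩ := exists_type hn hH h01 h02 h12 1 (-1) (Or.inl rfl) (Or.inr rfl)
    obtain ⟨b₃, w1, w2⟩ := exists_type hn hH h01 h02 h12 (-1) 1 (Or.inr rfl) (Or.inl rfl)
    refine ⟨T, ⟨H.submatrix (cyc r₀ r₁ r₂) id, ⟨fun i j => hH.1 _ _, ?_⟩, ?_, hT⟩, ?_⟩
    · ext i k
      have := congrFun (congrFun hH.2 (cyc r₀ r₁ r₂ i)) (cyc r₀ r₁ r₂ k)
      rw [Matrix.mul_apply] at this ⊢
      simp only [Matrix.transpose_apply, Matrix.smul_apply, Matrix.one_apply,
        Matrix.submatrix_apply, id] at this ⊢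
      rw [this]
      congr 1
      by_cases hik : i = k
      · simp [hik]
      · rw [if_neg hik, if_neg (fun h => hik (cyc_inj h01 h02 h12 h))]
    · intro heq
      have h3 := congrFun (congrFun heq r₁) b₂
      have c1 : cyc r₀ r₁ r₂ r₁ = r₂ := by simp [cyc, h01.symm]
      simp only [Matrix.submatrix_apply, id, c1] at h3
      rw [v1, v2] at h3
      rcases hH.1 r₀ b₂ with h | h <;> rw [h] at h3 <;> norm_num at h3
    · rintro ⟨𝓕, h𝓕, hp⟩
      have h1 := psi_sum H b₁ b₂ T 𝓕 hp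
      have h2 := psi_sum H b₂ b₃ T 𝓕 hp
      have h3 := psi_sum H b₁ b₃ T 𝓕 hp
      have hs : psi H b₁ b₂ T + psi H b₂ b₃ T + psi H b₁ b₃ T = 0 := by
        rw [h1, h2, h3, ← Finset.sum_add_distrib, ← Finset.sum_add_distrib]
        exact Finset.sum_eq_zero fun R hR => kill hH (h𝓕 R hR).1 (h𝓕 R hR).2 b₁ b₂ b₃
      rw [value hH h01 h02 h12 T hT b₁ b₂, value hH h01 h02 h12 T hT b₂ b₃,
        value hH h01 h02 h12 T hT b₁ b₃] at hs
      · exact absurd hs (by decide)
      · rw [u1, u2, w1, w2]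
        rcases hH.1 r₀ b₁ with h | h <;> rcases hH.1 r₀ b₃ with h' | h' <;> rw [h, h'] <;> norm_num
      · rw [v1, v2, w1, w2]
        rcases hH.1 r₀ b₂ with h | h <;> rcases hH.1 r₀ b₃ with h' | h' <;> rw [h, h'] <;> norm_num
      · rw [u1, u2, v1, v2]
        rcases hH.1 r₀ b₁ with h | h <;> rcases hH.1 r₀ b₂ with h' | h' <;> rw [h, h'] <;> norm_num
  · refine ⟨!![1, 1, 1, 1; 1, -1, 1, -1; 1, 1, -1, -1; 1, -1, -1, 1], ?_, ?_⟩
    · intro i j; fin_cases i <;> fin_cases j <;> simp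
    · ext i j; fin_cases i <;> fin_cases j <;> simp [Matrix.mul_apply, Fin.sum_univ_four]

end Pool.Agent.Results.MP_78a590_co.NotRectangular
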